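import Pool.Agent.H82.POLY.Main

set_option autoImplicit false

namespace Pool.POLY

theorem permCongr_symm' {A B : Type} (e : A ≃ B) (σ : Equiv.Perm A) (i : B) :
    e.symm ((e.permCongr σ).symm i) = σ.symm (e.symm i) := by
  have h : (e.permCongr σ).symm i = e (σ.symm (e.symm i)) := by
    rw [Equiv.symm_apply_eq, Equiv.permCongr_apply, Equiv.symm_apply_apply, Equiv.apply_symm_apply,
      Equiv.apply_symm_apply]
  rw [h, Equiv.symm_apply_apply]

/-- Transport of the stable matchings along a numbering. -/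
theorem st_congr {A B : Type} (e : A ≃ B) (dM dW : A → A → ℝ) (σ : Equiv.Perm A) :
    St dM dW σ ↔ St (fun i j => dM (e.symm i) (e.symm j)) (fun i j => dW (e.symm i) (e.symm j))
      (e.permCongr σ) := by
  unfold St
  have h1 : ∀ i, e.symm ((e.permCongr σ) i) = σ (e.symm i) := by
    intro i
    rw [Equiv.permCongr_apply, Equiv.symm_apply_apply]
  have h2 : ∀ i, e.symm ((e.permCongr σ).symm i) = σ.symm (e.symm i) := by
    intro i
    exact permCongr_symm' e σ i
  constructor
  · intro h m w hb
    simp only [h1, h2] at hb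
    exact h _ _ hb
  · intro h m w hb
    refine h (e m) (e w) ?_
    simp only [h1, h2, Equiv.symm_apply_apply]
    exact hb

/-- The numbered form of the theorem on curve systems. -/
theorem poly_fin {A P : Type} [Fintype A] [Finite P] [PartialOrder P] (x y : A → ℝ)
    (π : Equiv.Perm A) (el : A → P)
    (hx : Function.Injective x) (hy : Function.Injective y)
    (hf : ∀ a, π a ≠ a) (hcyc : ∀ a b, el a = el b ↔ π.SameCycle a b)
    (hsur : Function.Surjective el)
    (hcr : ∀ a w, Cr x y π a w → w = a ∨ w = π a ∨ el w < el a)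
    (hcov : ∀ p q : P, p ⋖ q → ∃ a w, el a = q ∧ el w = p ∧ Cr x y π a w) :
    ∃ (n : ℕ) (dM dW : Fin n → Fin n → ℝ), n = Fintype.card A ∧
      (∀ i, Function.Injective (dM i)) ∧ (∀ i, Function.Injective (dW i)) ∧
      (∃ X : Fin n → ℝ, Function.Injective X ∧
        ∀ i a b c, X a < X b → X b < X c → dM i b ≤ max (dM i a) (dM i c)) ∧
      (∃ Y : Fin n → ℝ, Function.Injective Y ∧
        ∀ i a b c, Y a < Y b → Y b < Y c → dW i b ≤ max (dW i a) (dW i c)) ∧
      ∃ f : LowerSet P ≃ {σ : Equiv.Perm (Fin n) // St dM dW σ},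
        ∀ S T, S ≤ T ↔ ∀ w, dW w ((f T).1.symm w) ≤ dW w ((f S).1.symm w) := by
  classical
  obtain ⟨f, hfo⟩ := poly_thm hx hy hf hcyc hsur hcr hcov
  let e : A ≃ Fin (Fintype.card A) := Fintype.equivFin A
  refine ⟨Fintype.card A, fun i j => pM x π (e.symm i) (e.symm j),
    fun i j => pW y π (e.symm i) (e.symm j), rfl, ?_, ?_, ?_, ?_, ?_⟩
  · intro i j k h
    exact e.symm.injective (pM_inj hx hf _ h)
  · intro i j k h
    exact e.symm.injective (pW_inj hy hf _ h)
  · exact ⟨fun i => x (e.symm i), hx.comp e.symm.injective, fun i a b c h1 h2 => bf_peak _ _ _ _ _ h1 h2⟩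
  · exact ⟨fun i => y (e.symm i), hy.comp e.symm.injective, fun i a b c h1 h2 => bf_peak _ _ _ _ _ h1 h2⟩
  · let g : {σ : Equiv.Perm A // St (pM x π) (pW y π) σ} ≃
        {σ : Equiv.Perm (Fin (Fintype.card A)) // St (fun i j => pM x π (e.symm i) (e.symm j))
          (fun i j => pW y π (e.symm i) (e.symm j)) σ} :=
      Equiv.subtypeEquiv e.permCongr (fun σ => st_congr e (pM x π) (pW y π) σ)
    refine ⟨f.trans g, ?_⟩
    intro S T
    rw [hfo S T]
    have h2 : ∀ (S : LowerSet P) (i : Fin (Fintype.card A)),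
        e.symm (((f.trans g) S).1.symm i) = (f S).1.symm (e.symm i) := by
      intro S i
      change e.symm ((e.permCongr (f S).1).symm i) = _
      exact permCongr_symm' e _ i
    simp only [h2]
    constructor
    · intro h i
      exact h (e.symm i)
    · intro h w
      have := h (e w)
      rwa [Equiv.symm_apply_apply] at this

end Pool.POLY
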