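import Mathlib

/-!
# Stable matchings from systems of closed rectilinear curves
-/

set_option autoImplicit false

namespace Pool.POLY

/-- The badness profile: increasing in `u ≥ 0`, then the values for `u < 0`, decreasing in `u`. -/
noncomputable def bf (u : ℝ) : ℝ := if 0 ≤ u then -(1 / (1 + u)) else -u

theorem bf_nn {u : ℝ} (h : 0 ≤ u) : bf u = -(1 / (1 + u)) := if_pos h

theorem bf_ng {u : ℝ} (h : u < 0) : bf u = -u := if_neg (not_le.mpr h)

theorem bf_neg {u : ℝ} (h : 0 ≤ u) : bf u < 0 := by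
  rw [bf_nn h]
  have : 0 < 1 / (1 + u) := by positivity
  linarith

theorem bf_pos {u : ℝ} (h : u < 0) : 0 < bf u := by
  rw [bf_ng h]; linarith

theorem bf_lt {u v : ℝ} (hu : 0 ≤ u) (h : u < v) : bf u < bf v := by
  rw [bf_nn hu, bf_nn (hu.trans h.le)]
  have : 1 / (1 + v) < 1 / (1 + u) := one_div_lt_one_div_of_lt (by linarith) (by linarith)
  linarith

theorem bf_le {u v : ℝ} (hu : 0 ≤ u) (h : u ≤ v) : bf u ≤ bf v := by
  rcases h.lt_or_eq with h | h
  · exact (bf_lt hu h).le
  · rw [h]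

theorem bf_inj : Function.Injective bf := by
  intro u v h
  rcases lt_or_ge u 0 with hu | hu <;> rcases lt_or_ge v 0 with hv | hv
  · rw [bf_ng hu, bf_ng hv] at h; linarith
  · have h1 := bf_pos hu; have h2 := bf_neg hv; linarith
  · have h1 := bf_pos hv; have h2 := bf_neg hu; linarith
  · rcases lt_trichotomy u v with h1 | h1 | h1
    · exact absurd h (bf_lt hu h1).ne
    · exact h1
    · exact absurd h.symm (bf_lt hv h1).ne

/-- `bf v ≤ bf u` with `0 ≤ u` means `0 ≤ v ≤ u`. -/
theorem bf_of_le {u v : ℝ} (hu : 0 ≤ u) (h : bf v ≤ bf u) : 0 ≤ v ∧ v ≤ u := by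
  rcases lt_or_ge v 0 with hv | hv
  · have h1 := bf_pos hv; have h2 := bf_neg hu; linarith
  · refine ⟨hv, ?_⟩
    by_contra hc
    exact absurd h (not_le.mpr (bf_lt hu (not_le.mp hc)))

theorem bf_zero_le (u : ℝ) : bf 0 ≤ bf u := by
  rcases lt_or_ge u 0 with hu | hu
  · exact ((bf_neg le_rfl).trans (bf_pos hu)).le
  · exact bf_le le_rfl hu

/-- Unimodality of `t ↦ bf ((t - p) * d)`. -/
theorem bf_peak (p d a b c : ℝ) (hab : a < b) (hbc : b < c) :
    bf ((b - p) * d) ≤ max (bf ((a - p) * d)) (bf ((c - p) * d)) := by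
  rcases lt_or_ge ((b - p) * d) 0 with h | h
  · rcases le_or_gt 0 d with hd | hd
    · refine le_max_of_le_left ?_
      have h1 : (a - p) * d ≤ (b - p) * d := by nlinarith
      rw [bf_ng h, bf_ng (lt_of_le_of_lt h1 h)]; linarith
    · refine le_max_of_le_right ?_
      have h1 : (c - p) * d ≤ (b - p) * d := by nlinarith
      rw [bf_ng h, bf_ng (lt_of_le_of_lt h1 h)]; linarith
  · rcases le_or_gt 0 d with hd | hd
    · refine le_max_of_le_right (bf_le h ?_)
      nlinarith
    · refine le_max_of_le_left (bf_le h ?_)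
      nlinarith

theorem uIcc_of {p q t : ℝ} (hpq : p ≠ q) (h0 : 0 ≤ (t - p) * (q - p)) (h1 : (t - p) * (q - p) ≤ (q - p) * (q - p)) :
    t ∈ Set.uIcc p q := by
  rw [Set.mem_uIcc]
  rcases lt_trichotomy p q with h | h | h
  · left
    constructor
    · by_contra hc; nlinarith
    · by_contra hc; nlinarith
  · subst h
    exact absurd rfl hpq
  · right
    constructor
    · by_contra hc; nlinarith
    · by_contra hc; nlinarith

end Pool.POLY
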