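import Pool.Agent.H82.POLY.Core

set_option autoImplicit false

namespace Pool.POLY

variable {A : Type}

/-- Badness of the woman `w` for the man `a`. -/
noncomputable def pM (x : A → ℝ) (π : Equiv.Perm A) (a w : A) : ℝ :=
  bf ((x w - x a) * (x (π a) - x a))

/-- Badness of the man `a` for the woman `w`. -/
noncomputable def pW (y : A → ℝ) (π : Equiv.Perm A) (w a : A) : ℝ :=
  bf ((y a - y (π.symm w)) * (y w - y (π.symm w)))

/-- The horizontal edge of `a` and the vertical edge of `w` meet. -/
def Cr (x y : A → ℝ) (π : Equiv.Perm A) (a w : A) : Prop :=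
  x w ∈ Set.uIcc (x a) (x (π a)) ∧ y a ∈ Set.uIcc (y w) (y (π.symm w))

/-- Stable matchings. -/
def St (dM dW : A → A → ℝ) (σ : Equiv.Perm A) : Prop :=
  ∀ m w, ¬ (dM m w < dM m (σ m) ∧ dW w m < dW w (σ.symm w))

section

variable {x y : A → ℝ} {π : Equiv.Perm A}

theorem pM_inj (hx : Function.Injective x) (hf : ∀ a, π a ≠ a) (a : A) :
    Function.Injective (pM x π a) := by
  intro w w' h
  have h1 := bf_inj h
  have h2 : x (π a) - x a ≠ 0 := sub_ne_zero.mpr fun h => hf a (hx h)
  exact hx (by have := mul_right_cancel₀ h2 h1; linarith)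

theorem hf' (hf : ∀ a, π a ≠ a) (w : A) : π.symm w ≠ w := by
  intro h
  exact hf w (by conv_lhs => rw [← h, Equiv.apply_symm_apply])

theorem pW_inj (hy : Function.Injective y) (hf : ∀ a, π a ≠ a) (w : A) :
    Function.Injective (pW y π w) := by
  intro a a' h
  have h1 := bf_inj h
  have h2 : y w - y (π.symm w) ≠ 0 := sub_ne_zero.mpr fun h => hf' hf w (hy h).symm
  exact hy (by have := mul_right_cancel₀ h2 h1; linarith)

theorem pM_self (a : A) : pM x π a a = bf 0 := by
  unfold pM; rw [sub_self, zero_mul]

theorem pW_self (w : A) : pW y π w (π.symm w) = bf 0 := by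
  unfold pW; rw [sub_self, zero_mul]

theorem pM_top (a w : A) : pM x π a a ≤ pM x π a w := by
  rw [pM_self]; exact bf_zero_le _

theorem pW_top (w a : A) : pW y π w (π.symm w) ≤ pW y π w a := by
  rw [pW_self]; exact bf_zero_le _

theorem cr_of (hx : Function.Injective x) (hy : Function.Injective y) (hf : ∀ a, π a ≠ a)
    {a w : A} (h1 : pM x π a w ≤ pM x π a (π a)) (h2 : pW y π w a ≤ pW y π w w) :
    Cr x y π a w := by
  constructor
  · obtain ⟨h3, h4⟩ := bf_of_le (mul_self_nonneg _) h1
    exact uIcc_of (fun h => hf a (hx h).symm) h3 h4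
  · obtain ⟨h3, h4⟩ := bf_of_le (mul_self_nonneg _) h2
    rw [Set.uIcc_comm]
    exact uIcc_of (fun h => hf' hf w (hy h)) h3 h4

theorem le_of_uIcc {p q t : ℝ} (h : t ∈ Set.uIcc p q) :
    0 ≤ (t - p) * (q - p) ∧ (t - p) * (q - p) ≤ (q - p) * (q - p) := by
  rw [Set.mem_uIcc] at h
  rcases h with ⟨h1, h2⟩ | ⟨h1, h2⟩
  · constructor <;> nlinarith
  · constructor <;> nlinarith

theorem cr_M {a w : A} (h : Cr x y π a w) : pM x π a w ≤ pM x π a (π a) :=
  bf_le (le_of_uIcc h.1).1 (le_of_uIcc h.1).2

theorem cr_W {a w : A} (h : Cr x y π a w) : pW y π w a ≤ pW y π w w := by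
  have h1 := h.2
  rw [Set.uIcc_comm] at h1
  exact bf_le (le_of_uIcc h1).1 (le_of_uIcc h1).2

end

/-- The permutation which is `π` on the elements over `S` and the identity elsewhere. -/
def sp {P : Type} (π : Equiv.Perm A) (el : A → P) (he : ∀ a, el (π a) = el a) (S : Set P)
    [DecidablePred (· ∈ S)] : Equiv.Perm A where
  toFun a := if el a ∈ S then π a else a
  invFun a := if el a ∈ S then π.symm a else a
  left_inv a := by
    by_cases h : el a ∈ S
    · simp only [h, if_true, he, Equiv.symm_apply_apply]
    · simp only [h, if_false]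
  right_inv a := by
    have h0 : el (π.symm a) = el a := by
      conv_rhs => rw [← Equiv.apply_symm_apply π a, he]
    by_cases h : el a ∈ S
    · simp only [h, if_true, h0, Equiv.apply_symm_apply]
    · simp only [h, if_false]

section

variable {P : Type} [PartialOrder P] {x y : A → ℝ} {π : Equiv.Perm A} {el : A → P}

omit [PartialOrder P] in
theorem el_symm (he : ∀ a, el (π a) = el a) (a : A) : el (π.symm a) = el a := by
  conv_rhs => rw [← Equiv.apply_symm_apply π a, he]

omit [PartialOrder P] in
theorem sp_mem (he : ∀ a, el (π a) = el a) {S : Set P} [DecidablePred (· ∈ S)] {a : A}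
    (h : el a ∈ S) : sp π el he S a = π a := if_pos h

omit [PartialOrder P] in
theorem sp_not (he : ∀ a, el (π a) = el a) {S : Set P} [DecidablePred (· ∈ S)] {a : A}
    (h : el a ∉ S) : sp π el he S a = a := if_neg h

omit [PartialOrder P] in
theorem sps_mem (he : ∀ a, el (π a) = el a) {S : Set P} [DecidablePred (· ∈ S)] {a : A}
    (h : el a ∈ S) : (sp π el he S).symm a = π.symm a := if_pos h

omit [PartialOrder P] in
theorem sps_not (he : ∀ a, el (π a) = el a) {S : Set P} [DecidablePred (· ∈ S)] {a : A}
    (h : el a ∉ S) : (sp π el he S).symm a = a := if_neg h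

/-- The matching of a lower set is stable. -/
theorem sp_st (hx : Function.Injective x) (hy : Function.Injective y) (hf : ∀ a, π a ≠ a)
    (he : ∀ a, el (π a) = el a)
    (hcr : ∀ a w, Cr x y π a w → w = a ∨ w = π a ∨ el w < el a)
    (S : Set P) [DecidablePred (· ∈ S)] (hS : ∀ p q, p ≤ q → q ∈ S → p ∈ S) :
    St (pM x π) (pW y π) (sp π el he S) := by
  intro a w ⟨h1, h2⟩
  -- the partner of `a` is at least as good as `π a`
  have hin : el a ∈ S := by
    by_contra hc
    rw [sp_not he hc] at h1
    exact absurd h1 (not_lt.mpr (pM_top a w))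
  have hout : el w ∉ S := by
    intro hc
    rw [sps_mem he hc] at h2
    exact absurd h2 (not_lt.mpr (pW_top w a))
  rw [sp_mem he hin] at h1
  rw [sps_not he hout] at h2
  rcases hcr a w (cr_of hx hy hf h1.le h2.le) with h | h | h
  · exact hout (h ▸ hin)
  · exact hout (by rw [h, he]; exact hin)
  · exact hout (hS _ _ h.le hin)

/-- A stable matching moves every man to himself or to his successor. -/
theorem st_cases [Fintype A] [Finite P] (hx : Function.Injective x) (hy : Function.Injective y)
    (hf : ∀ a, π a ≠ a) (he : ∀ a, el (π a) = el a)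
    (hcr : ∀ a w, Cr x y π a w → w = a ∨ w = π a ∨ el w < el a)
    (σ : Equiv.Perm A) (hσ : St (pM x π) (pW y π) σ) (a : A) : σ a = a ∨ σ a = π a := by
  classical
  have hM : ∀ a, pM x π a (σ a) ≤ pM x π a (π a) := by
    intro a
    by_contra hc
    have hc' := not_le.mp hc
    have hne : σ.symm (π a) ≠ a := by
      intro h
      rw [Equiv.symm_apply_eq] at h
      rw [h] at hc'
      exact lt_irrefl _ hc'
    refine hσ a (π a) ⟨hc', ?_⟩
    have h1 := pW_top (y := y) (π := π) (π a) (σ.symm (π a))
    rw [Equiv.symm_apply_apply] at h1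
    exact lt_of_le_of_ne h1 fun h => hne (pW_inj hy hf _ h).symm
  have hW : ∀ w, pW y π w (σ.symm w) ≤ pW y π w w := by
    intro w
    by_contra hc
    have hc' := not_le.mp hc
    have hne : σ w ≠ w := by
      intro h
      have h1 : σ.symm w = w := by rw [Equiv.symm_apply_eq, h]
      rw [h1] at hc'
      exact lt_irrefl _ hc'
    refine hσ w w ⟨?_, hc'⟩
    exact lt_of_le_of_ne (pM_top w (σ w)) fun h => hne (pM_inj hx hf _ h).symm
  have hc : ∀ a, σ a = a ∨ σ a = π a ∨ el (σ a) < el a := by
    intro a
    refine hcr a (σ a) (cr_of hx hy hf (hM a) ?_)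
    have h := hW (σ a)
    rwa [Equiv.symm_apply_apply] at h
  -- ranks
  have : Fintype P := Fintype.ofFinite P
  set f : P → ℕ := fun p => (Finset.univ.filter fun q => q < p).card with hfd
  have hfm : ∀ p q : P, p < q → f p < f q := by
    intro p q hpq
    refine Finset.card_lt_card ?_
    rw [Finset.ssubset_iff_of_subset]
    · exact ⟨p, by simp [hpq], by simp⟩
    · intro r hr
      simp only [Finset.mem_filter, Finset.mem_univ, true_and] at hr ⊢
      exact hr.trans hpq
  have hle : ∀ a ∈ Finset.univ, f (el (σ a)) ≤ f (el a) := by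
    intro a _
    rcases hc a with h | h | h
    · rw [h]
    · rw [h, he]
    · exact (hfm _ _ h).le
  have hsum : ∑ a, f (el (σ a)) = ∑ a, f (el a) :=
    Equiv.sum_comp σ fun a => f (el a)
  have heq := (Finset.sum_eq_sum_iff_of_le hle).mp hsum a (Finset.mem_univ a)
  rcases hc a with h | h | h
  · exact Or.inl h
  · exact Or.inr h
  · exact absurd heq (hfm _ _ h).ne

/-- The main statement: the lower sets of `P` are the stable matchings. -/
theorem poly_thm [Fintype A] [Finite P] (hx : Function.Injective x) (hy : Function.Injective y)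
    (hf : ∀ a, π a ≠ a) (hcyc : ∀ a b, el a = el b ↔ π.SameCycle a b)
    (hsur : Function.Surjective el)
    (hcr : ∀ a w, Cr x y π a w → w = a ∨ w = π a ∨ el w < el a)
    (hcov : ∀ p q : P, p ⋖ q → ∃ a w, el a = q ∧ el w = p ∧ Cr x y π a w) :
    ∃ f : LowerSet P ≃ {σ : Equiv.Perm A // St (pM x π) (pW y π) σ},
      ∀ S T, S ≤ T ↔ ∀ w, pW y π w ((f T).1.symm w) ≤ pW y π w ((f S).1.symm w) := by
  classical
  have he : ∀ a, el (π a) = el a := fun a =>
    ((hcyc a (π a)).mpr (Equiv.Perm.sameCycle_apply_right.mpr (Equiv.Perm.SameCycle.refl _ _))).symm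
  have hlow : ∀ S : LowerSet P, ∀ p q, p ≤ q → q ∈ (S : Set P) → p ∈ (S : Set P) :=
    fun S p q h hq => S.lower h hq
  let g : LowerSet P → {σ : Equiv.Perm A // St (pM x π) (pW y π) σ} := fun S =>
    ⟨sp π el he (S : Set P), sp_st hx hy hf he hcr (S : Set P) (hlow S)⟩
  have hmv : ∀ (S : LowerSet P) (a : A), (g S).1 a = π a ↔ el a ∈ (S : Set P) := by
    intro S a
    constructor
    · intro h
      by_contra hc
      have h1 : (g S).1 a = a := sp_not he hc
      exact hf a (h.symm.trans h1)
    · intro h
      exact sp_mem he h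
  have hinj : Function.Injective g := by
    intro S T h
    ext p
    obtain ⟨a, rfl⟩ := hsur p
    have h1 := hmv S a
    have h2 := hmv T a
    rw [h] at h1
    exact h1.symm.trans h2
  have hsurj : Function.Surjective g := by
    rintro ⟨σ, hσ⟩
    have hc := st_cases hx hy hf he hcr σ hσ
    have hstep : ∀ a, σ a = π a → σ (π a) = π (π a) := by
      intro a ha
      rcases hc (π a) with h | h
      · exact absurd (σ.injective (h.trans ha.symm)) (hf a)
      · exact h
    have hpow : ∀ (n : ℕ) a, σ a = π a → σ ((π ^ n) a) = π ((π ^ n) a) := by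
      intro n
      induction n with
      | zero => intro a ha; exact ha
      | succ n ih =>
        intro a ha
        rw [pow_succ, Equiv.Perm.mul_apply]
        exact ih (π a) (hstep a ha)
    have hall : ∀ a b, el a = el b → σ a = π a → σ b = π b := by
      intro a b hab ha
      obtain ⟨n, hn⟩ := ((hcyc a b).mp hab).exists_nat_pow_eq
      rw [← hn]
      exact hpow n a ha
    have hcovS : ∀ p q : P, p ⋖ q → (∀ a, el a = q → σ a = π a) → ∀ w, el w = p → σ w = π w := by
      intro p q hpq hq w' hw'
      obtain ⟨a, w, ha, hw, hm⟩ := hcov p q hpq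
      refine hall w w' (hw.trans hw'.symm) ?_
      rcases hc w with h | h
      · exfalso
        have hne : w ≠ π a := by
          intro h1
          exact hpq.lt.ne (hw.symm.trans (by rw [h1, he, ha]))
        have hne2 : a ≠ w := by
          intro h1
          exact hpq.lt.ne (hw.symm.trans (by rw [← h1, ha]))
        refine hσ a w ⟨?_, ?_⟩
        · rw [hq a ha]
          exact lt_of_le_of_ne (cr_M hm) fun h1 => hne (pM_inj hx hf a h1)
        · have h2 : σ.symm w = w := by rw [Equiv.symm_apply_eq, h]
          rw [h2]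
          exact lt_of_le_of_ne (cr_W hm) fun h1 => hne2 (pW_inj hy hf w h1)
      · exact h
    let S : LowerSet P := ⟨{p | ∀ a, el a = p → σ a = π a}, by
      have : WellFoundedLT P := inferInstance
      intro q p hpq hq
      have key : ∀ q p : P, p ≤ q → (∀ a, el a = q → σ a = π a) → ∀ a, el a = p → σ a = π a := by
        intro q
        induction q using WellFoundedLT.induction with
        | ind q ih =>
          intro p hpq hq
          rcases hpq.lt_or_eq with h | h
          · obtain ⟨r, hr1, hr2⟩ := exists_le_covBy_of_lt h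
            exact ih r hr2.lt p hr1 (hcovS r q hr2 hq)
          · rw [h]; exact hq
      exact key q p hpq hq⟩
    refine ⟨S, ?_⟩
    apply Subtype.ext
    ext a
    by_cases h : el a ∈ (S : Set P)
    · rw [(hmv S a).mpr h]
      exact (h a rfl).symm
    · have h1 : (g S).1 a = a := sp_not he h
      rw [h1]
      rcases hc a with h2 | h2
      · exact h2.symm
      · exfalso
        apply h
        intro b hb
        exact hall a b hb.symm h2
  refine ⟨Equiv.ofBijective g ⟨hinj, hsurj⟩, ?_⟩
  intro S T
  change S ≤ T ↔ ∀ w, pW y π w ((g T).1.symm w) ≤ pW y π w ((g S).1.symm w)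
  constructor
  · intro h w
    by_cases hT : el w ∈ (T : Set P)
    · have h1 : (g T).1.symm w = π.symm w := sps_mem he hT
      rw [h1]
      exact pW_top w _
    · have hS : el w ∉ (S : Set P) := fun h1 => hT (h h1)
      have h1 : (g T).1.symm w = w := sps_not he hT
      have h2 : (g S).1.symm w = w := sps_not he hS
      rw [h1, h2]
  · intro h p hp
    obtain ⟨w, rfl⟩ := hsur p
    by_contra hT
    have h1 : (g T).1.symm w = w := sps_not he hT
    have h2 : (g S).1.symm w = π.symm w := sps_mem he hp
    have h3 := h w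
    rw [h1, h2] at h3
    exact hf' hf w (pW_inj hy hf w (le_antisymm (pW_top w w) h3))

end

end Pool.POLY
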